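import Pool.Agent.Helper23.PeriodDefs

/-! Towers: the sets obtained from a point by segment bundles, disc bundles, injective polynomial
parametrisations, disjoint unions and differences, all data being polynomials over the field of
real algebraic numbers. -/

set_option autoImplicit false

open MeasureTheory

namespace Pool.Agent.Helper77.TW

open Pool.Agent.Helper23.PeriodDefs

/-- the Jacobian determinant of a polynomial map, a polynomial -/
noncomputable def jacobian {n : ℕ} (F : Fin n → MultiPoly n) : MultiPoly n :=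
  (Matrix.of fun i j => MvPolynomial.pderiv j (F i)).det

/-- the polynomial map -/
noncomputable def polyMap {n : ℕ} (F : Fin n → MultiPoly n) (x : Fin n → ℝ) : Fin n → ℝ :=
  fun i => evalMulti (F i) x

/-- the first `n` coordinates of a point of `ℝ^(n+k)` -/
def fstCoords {n : ℕ} (k : ℕ) (z : Fin (n + k) → ℝ) : Fin n → ℝ := fun i => z (Fin.castAdd k i)

/-- `Tower n D`: the domain `D` in `ℝ^n` is obtained from a point by the following steps, where
all polynomials have real algebraic coefficients:
(1) the segment bundle `{(x, t) : x ∈ D, 0 ≤ t ≤ g(x)}`, where `g ≥ 0` on `D`;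
(2) the disc bundle `{(x, u, v) : x ∈ D, u ^ 2 + v ^ 2 ≤ r(x)}`, where `r ≥ 0` on `D`;
(3) the image of `D` under a polynomial map which is injective on `D` and whose Jacobian
determinant has a constant sign on `D`;
(4) the union of two disjoint domains;
(5) the difference `D \ E` of a domain `D` and a domain `E ⊆ D`. -/
inductive Tower : (n : ℕ) → Set (Fin n → ℝ) → Prop
  | point : Tower 0 Set.univ
  | segment {n : ℕ} {D : Set (Fin n → ℝ)} (hD : Tower n D) (g : MultiPoly n)
      (hg : ∀ x ∈ D, 0 ≤ evalMulti g x) :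
      Tower (n + 1) {z | fstCoords 1 z ∈ D ∧ 0 ≤ z (Fin.natAdd n 0) ∧
        z (Fin.natAdd n 0) ≤ evalMulti g (fstCoords 1 z)}
  | disc {n : ℕ} {D : Set (Fin n → ℝ)} (hD : Tower n D) (r : MultiPoly n)
      (hr : ∀ x ∈ D, 0 ≤ evalMulti r x) :
      Tower (n + 2) {z | fstCoords 2 z ∈ D ∧
        z (Fin.natAdd n 0) ^ 2 + z (Fin.natAdd n 1) ^ 2 ≤ evalMulti r (fstCoords 2 z)}
  | image {n : ℕ} {D : Set (Fin n → ℝ)} (hD : Tower n D) (F : Fin n → MultiPoly n)
      (hF : Set.InjOn (polyMap F) D)
      (hJ : (∀ x ∈ D, 0 ≤ evalMulti (jacobian F) x) ∨ ∀ x ∈ D, evalMulti (jacobian F) x ≤ 0) :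
      Tower n (polyMap F '' D)
  | union {n : ℕ} {D E : Set (Fin n → ℝ)} (hD : Tower n D) (hE : Tower n E)
      (h : Disjoint D E) : Tower n (D ∪ E)
  | diff {n : ℕ} {D E : Set (Fin n → ℝ)} (hD : Tower n D) (hE : Tower n E)
      (h : E ⊆ D) : Tower n (D \ E)

/-- the integrals of polynomials over towers -/
def IsTowerIntegral (v : ℝ) : Prop :=
  ∃ (n : ℕ) (D : Set (Fin n → ℝ)) (P : MultiPoly n), Tower n D ∧ v = ∫ x in D, evalMulti P x

/-- the algebra over the real algebraic numbers generated by the integrals of polynomials over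
towers -/
noncomputable def towerRing : Subalgebra RealAlg ℝ :=
  Algebra.adjoin RealAlg {v : ℝ | IsTowerIntegral v}

end Pool.Agent.Helper77.TW
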