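import Pool.Agent.Helper77.Tower.Defs
import Pool.Agent.Helper23.PeriodProof

set_option autoImplicit false

open MeasureTheory Set

namespace Pool.Agent.Helper77.TW

open Pool.Agent.Helper23.PeriodDefs Pool.Agent.Helper23.PeriodProof

/-! ### polynomials -/

section poly

variable {n : ℕ}

theorem eval_add (P Q : MultiPoly n) (x : Fin n → ℝ) :
    evalMulti (P + Q) x = evalMulti P x + evalMulti Q x := map_add _ _ _

theorem eval_mul (P Q : MultiPoly n) (x : Fin n → ℝ) :
    evalMulti (P * Q) x = evalMulti P x * evalMulti Q x := map_mul _ _ _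

theorem eval_neg (P : MultiPoly n) (x : Fin n → ℝ) :
    evalMulti (-P) x = -evalMulti P x := map_neg _ _

theorem eval_pow (P : MultiPoly n) (k : ℕ) (x : Fin n → ℝ) :
    evalMulti (P ^ k) x = evalMulti P x ^ k := map_pow _ _ _

theorem eval_C (a : RealAlg) (x : Fin n → ℝ) :
    evalMulti (MvPolynomial.C a : MultiPoly n) x = (a : ℝ) := MvPolynomial.aeval_C _ _

theorem eval_X (i : Fin n) (x : Fin n → ℝ) :
    evalMulti (MvPolynomial.X i : MultiPoly n) x = x i := MvPolynomial.aeval_X _ _

theorem eval_cont (P : MultiPoly n) : Continuous (evalMulti P) := by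
  induction P using MvPolynomial.induction_on with
  | C a => simpa only [funext (eval_C a)] using continuous_const
  | add p q hp hq =>
    rw [show evalMulti (p + q) = fun x => evalMulti p x + evalMulti q x from
      funext (eval_add p q)]
    exact hp.add hq
  | mul_X p i hp =>
    have h : evalMulti (p * MvPolynomial.X i) = fun x => evalMulti p x * x i := by
      funext x
      rw [eval_mul, eval_X]
    rw [h]
    exact hp.mul (continuous_apply i)

theorem eval_fderiv (P : MultiPoly n) (x : Fin n → ℝ) :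
    HasFDerivAt (evalMulti P) (∑ j, evalMulti (MvPolynomial.pderiv j P) x •
      (ContinuousLinearMap.proj (R := ℝ) (φ := fun _ : Fin n => ℝ) j)) x := by
  induction P using MvPolynomial.induction_on with
  | C a =>
    have h : (∑ j, evalMulti (MvPolynomial.pderiv j (MvPolynomial.C a : MultiPoly n)) x •
      (ContinuousLinearMap.proj (R := ℝ) (φ := fun _ : Fin n => ℝ) j)) = 0 := by
      refine Finset.sum_eq_zero fun j _ => ?_
      rw [MvPolynomial.pderiv_C]
      unfold evalMulti
      rw [map_zero, zero_smul]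
    rw [h, funext (eval_C a)]
    exact hasFDerivAt_const _ _
  | add p q hp hq =>
    have h : (∑ j, evalMulti (MvPolynomial.pderiv j (p + q)) x •
      (ContinuousLinearMap.proj (R := ℝ) (φ := fun _ : Fin n => ℝ) j)) =
      (∑ j, evalMulti (MvPolynomial.pderiv j p) x •
      (ContinuousLinearMap.proj (R := ℝ) (φ := fun _ : Fin n => ℝ) j)) +
      (∑ j, evalMulti (MvPolynomial.pderiv j q) x •
      (ContinuousLinearMap.proj (R := ℝ) (φ := fun _ : Fin n => ℝ) j)) := by
      rw [← Finset.sum_add_distrib]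
      refine Finset.sum_congr rfl fun j _ => ?_
      rw [map_add, eval_add, add_smul]
    rw [h, funext (eval_add p q)]
    exact hp.add hq
  | mul_X p i hp =>
    have h : evalMulti (p * MvPolynomial.X i) = fun x => evalMulti p x * x i := by
      funext x
      rw [eval_mul, eval_X]
    have h1 : HasFDerivAt (fun x : Fin n → ℝ => x i)
        (ContinuousLinearMap.proj (R := ℝ) (φ := fun _ : Fin n => ℝ) i) x :=
      (ContinuousLinearMap.proj (R := ℝ) (φ := fun _ : Fin n => ℝ) i).hasFDerivAt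
    have h2 := hp.mul h1
    rw [h]
    refine h2.congr_fderiv ?_
    have h3 : ∀ j, evalMulti (MvPolynomial.pderiv j (p * MvPolynomial.X i)) x =
        x i * evalMulti (MvPolynomial.pderiv j p) x +
          evalMulti p x * (if i = j then 1 else 0) := by
      intro j
      rw [Derivation.leibniz, MvPolynomial.pderiv_X, smul_eq_mul, smul_eq_mul, eval_add,
        eval_mul, eval_mul, eval_X, add_comm]
      congr 1
      rw [Pi.single_apply]
      by_cases hij : i = j
      · subst hij
        rw [if_pos rfl, if_pos rfl]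
        unfold evalMulti
        rw [map_one]
      · rw [if_neg hij, if_neg hij]
        unfold evalMulti
        rw [map_zero]
    simp only [h3, add_smul, Finset.sum_add_distrib]
    rw [add_comm]
    congr 1
    · rw [Finset.smul_sum]
      refine Finset.sum_congr rfl fun j _ => ?_
      rw [smul_smul]
    · simp only [mul_ite, mul_one, mul_zero, ite_smul, zero_smul, Finset.sum_ite_eq,
        Finset.mem_univ, if_true]

/-- the differential of a polynomial map -/
noncomputable def dmap (F : Fin n → MultiPoly n) (x : Fin n → ℝ) :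
    (Fin n → ℝ) →L[ℝ] (Fin n → ℝ) :=
  ContinuousLinearMap.pi fun i => ∑ j, evalMulti (MvPolynomial.pderiv j (F i)) x •
      (ContinuousLinearMap.proj (R := ℝ) (φ := fun _ : Fin n => ℝ) j)

theorem polyMap_fderiv (F : Fin n → MultiPoly n) (x : Fin n → ℝ) :
    HasFDerivAt (polyMap F) (dmap F x) x :=
  hasFDerivAt_pi.mpr fun i => eval_fderiv (F i) x

theorem dmap_det (F : Fin n → MultiPoly n) (x : Fin n → ℝ) :
    (dmap F x).det = evalMulti (jacobian F) x := by
  have h1 : (dmap F x : (Fin n → ℝ) →ₗ[ℝ] (Fin n → ℝ)) = Matrix.toLin'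
      (Matrix.of fun i j => evalMulti (MvPolynomial.pderiv j (F i)) x) := by
    ext1 i
    ext k
    simp [dmap, Matrix.toLin'_apply, Matrix.mulVec, dotProduct]
  rw [ContinuousLinearMap.det, h1, LinearMap.det_toLin']
  unfold jacobian evalMulti
  rw [AlgHom.map_det]
  rfl

theorem polyMap_cont (F : Fin n → MultiPoly n) : Continuous (polyMap F) :=
  continuous_pi fun i => eval_cont (F i)

theorem eval_comp (F : Fin n → MultiPoly n) (P : MultiPoly n) (x : Fin n → ℝ) :
    evalMulti (MvPolynomial.bind₁ F P) x = evalMulti P (polyMap F x) := by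
  unfold evalMulti
  rw [MvPolynomial.aeval_bind₁]
  rfl

theorem bdd_eval (P : MultiPoly n) {D : Set (Fin n → ℝ)} (hD : Bornology.IsBounded D) :
    ∃ C : ℝ, ∀ x ∈ D, |evalMulti P x| ≤ C := by
  have hK : IsCompact (closure D) := hD.isCompact_closure
  obtain ⟨C, hC⟩ := hK.exists_bound_of_continuousOn (eval_cont P).continuousOn
  exact ⟨C, fun x hx => hC x (subset_closure hx)⟩

theorem integrable_eval (P : MultiPoly n) {D : Set (Fin n → ℝ)} (hD : Bornology.IsBounded D) :
    IntegrableOn (evalMulti P) D :=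
  ((eval_cont P).continuousOn.integrableOn_compact hD.isCompact_closure).mono_set
    subset_closure

end poly

/-! ### angular integrals -/

section angle

open Real

/-- the angular integral -/
noncomputable def ang (a b : ℕ) : ℝ := ∫ θ in (-π)..π, cos θ ^ a * sin θ ^ b

theorem ang_add_two (a b : ℕ) : ang (a + 2) b = ang a b - ang a (b + 2) := by
  unfold ang
  rw [← intervalIntegral.integral_sub]
  · refine intervalIntegral.integral_congr fun θ _ => ?_
    have h := cos_sq' θ
    show cos θ ^ (a + 2) * sin θ ^ b = cos θ ^ a * sin θ ^ b - cos θ ^ a * sin θ ^ (b + 2)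
    rw [pow_add (cos θ) a 2, h, pow_add (sin θ) b 2]
    ring
  · exact Continuous.intervalIntegrable (by fun_prop) _ _
  · exact Continuous.intervalIntegrable (by fun_prop) _ _

theorem ang_one (b : ℕ) : ang 1 b = 0 := by
  unfold ang
  have h : ∀ θ ∈ uIcc (-π) π, HasDerivAt (fun θ => sin θ ^ (b + 1) / (b + 1))
      (cos θ ^ 1 * sin θ ^ b) θ := by
    intro θ _
    have h1 := ((hasDerivAt_sin θ).pow (b + 1)).div_const ((b : ℝ) + 1)
    refine h1.congr_deriv ?_
    have : (b : ℝ) + 1 ≠ 0 := by positivity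
    push_cast
    field_simp
  rw [intervalIntegral.integral_eq_sub_of_hasDerivAt h
    (Continuous.intervalIntegrable (by fun_prop) _ _)]
  simp

theorem ang_zero_add_two (b : ℕ) : ang 0 (b + 2) = (b + 1) / (b + 2) * ang 0 b := by
  unfold ang
  have h1 : ∀ c : ℕ, (∫ θ in (-π)..π, cos θ ^ 0 * sin θ ^ c) = ∫ θ in (-π)..π, sin θ ^ c :=
    fun c => intervalIntegral.integral_congr fun θ _ => by simp
  rw [h1, h1, integral_sin_pow]
  simp

theorem ang_zero (b : ℕ) : (Even b → ∃ c : ℚ, ang 0 b = c * π) ∧ (¬ Even b → ang 0 b = 0) := by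
  induction b using Nat.twoStepInduction with
  | zero =>
    refine ⟨fun _ => ⟨2, ?_⟩, fun h => absurd Even.zero h⟩
    unfold ang
    simp
    ring
  | one =>
    refine ⟨fun h => absurd h (by decide), fun _ => ?_⟩
    unfold ang
    simp
  | more b ih _ =>
    rw [ang_zero_add_two]
    constructor
    · intro h
      obtain ⟨c, hc⟩ := ih.1 ((Nat.even_add.mp h).mpr even_two)
      refine ⟨(b + 1) / (b + 2) * c, ?_⟩
      rw [hc]
      push_cast
      ring
    · intro h
      rw [ih.2 fun h' => h (h'.add even_two), mul_zero]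

theorem ang_val (a : ℕ) : ∀ b, (Even a → Even b → ∃ c : ℚ, ang a b = c * π) ∧
    (¬ (Even a ∧ Even b) → ang a b = 0) := by
  induction a using Nat.twoStepInduction with
  | zero =>
    intro b
    exact ⟨fun _ h => (ang_zero b).1 h, fun h => (ang_zero b).2 fun h' => h ⟨Even.zero, h'⟩⟩
  | one =>
    intro b
    exact ⟨fun h => absurd h (by decide), fun _ => ang_one b⟩
  | more a ih _ =>
    intro b
    rw [ang_add_two]
    constructor
    · intro h h'
      have ha : Even a := (Nat.even_add.mp h).mpr even_two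
      obtain ⟨c, hc⟩ := (ih b).1 ha h'
      obtain ⟨c', hc'⟩ := (ih (b + 2)).1 ha (h'.add even_two)
      refine ⟨c - c', ?_⟩
      rw [hc, hc']
      push_cast
      ring
    · intro h
      rw [(ih b).2 fun h' => h ⟨h'.1.add even_two, h'.2⟩,
        (ih (b + 2)).2 fun h' => h ⟨h'.1.add even_two, (Nat.even_add.mp h'.2).mpr even_two⟩,
        sub_zero]

theorem radial (N : ℕ) {r : ℝ} (hr : 0 ≤ r) :
    ∫ t in Ioi (0 : ℝ), (if t ^ 2 ≤ r then t ^ N else 0) = √r ^ (N + 1) / (N + 1) := by
  have h1 : (fun t : ℝ => if t ^ 2 ≤ r then t ^ N else 0) =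
      {t : ℝ | t ^ 2 ≤ r}.indicator fun t => t ^ N := by
    funext t
    rw [Set.indicator_apply]
    rfl
  have hm : MeasurableSet {t : ℝ | t ^ 2 ≤ r} :=
    measurableSet_le (by fun_prop) measurable_const
  rw [h1, setIntegral_indicator hm]
  have h2 : Ioi (0 : ℝ) ∩ {t : ℝ | t ^ 2 ≤ r} = Ioc 0 (√r) := by
    ext t
    simp only [mem_inter_iff, mem_Ioi, mem_ofPred_eq, mem_Ioc]
    constructor
    · rintro ⟨h3, h4⟩
      exact ⟨h3, Real.le_sqrt_of_sq_le h4⟩
    · rintro ⟨h3, h4⟩
      exact ⟨h3, (Real.le_sqrt h3.le hr).mp h4⟩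
  rw [h2, ← intervalIntegral.integral_of_le (Real.sqrt_nonneg r), integral_pow]
  simp

theorem disc_moment (a b : ℕ) {r : ℝ} (hr : 0 ≤ r) :
    ∫ p : ℝ × ℝ, (if p.1 ^ 2 + p.2 ^ 2 ≤ r then p.1 ^ a * p.2 ^ b else 0) =
      √r ^ (a + b + 2) / (a + b + 2) * ang a b := by
  rw [← integral_comp_polarCoord_symm]
  have h1 : ∀ p ∈ polarCoord.target, p.1 • (if ((polarCoord.symm p).1) ^ 2 +
      ((polarCoord.symm p).2) ^ 2 ≤ r then (polarCoord.symm p).1 ^ a *
        (polarCoord.symm p).2 ^ b else 0) =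
      (if p.1 ^ 2 ≤ r then p.1 ^ (a + b + 1) else 0) * (cos p.2 ^ a * sin p.2 ^ b) := by
    rintro ⟨t, θ⟩ _
    simp only [polarCoord_symm_apply, smul_eq_mul]
    have h2 : (t * cos θ) ^ 2 + (t * sin θ) ^ 2 = t ^ 2 := by
      have := sin_sq_add_cos_sq θ
      calc (t * cos θ) ^ 2 + (t * sin θ) ^ 2 = t ^ 2 * (sin θ ^ 2 + cos θ ^ 2) := by ring
        _ = t ^ 2 := by rw [this, mul_one]
    rw [h2]
    split_ifs
    · ring
    · ring
  rw [setIntegral_congr_fun polarCoord.open_target.measurableSet h1]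
  have h3 : polarCoord.target = Ioi (0 : ℝ) ×ˢ Ioo (-π) π := rfl
  rw [h3, Measure.volume_eq_prod, setIntegral_prod_mul
    (fun t : ℝ => if t ^ 2 ≤ r then t ^ (a + b + 1) else 0)
    (fun θ : ℝ => cos θ ^ a * sin θ ^ b), radial _ hr]
  have h4 : ∫ θ in Ioo (-π) π, cos θ ^ a * sin θ ^ b = ang a b := by
    unfold ang
    rw [intervalIntegral.integral_of_le (by linarith [pi_pos]), integral_Ioc_eq_integral_Ioo]
  rw [h4]
  push_cast
  ring

end angle

/-! ### Fubini -/

section fub

/-- the last coordinates -/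
def sndCoords {n : ℕ} (k : ℕ) (z : Fin (n + k) → ℝ) : Fin k → ℝ := fun j => z (Fin.natAdd n j)

/-- splitting of the coordinates -/
noncomputable def split (n k : ℕ) : (Fin (n + k) → ℝ) ≃ᵐ (Fin n → ℝ) × (Fin k → ℝ) :=
  (MeasurableEquiv.piCongrLeft (fun _ : Fin (n + k) => ℝ) finSumFinEquiv).symm.trans
    (MeasurableEquiv.sumPiEquivProdPi fun _ : Fin n ⊕ Fin k => ℝ)

theorem split_apply (n k : ℕ) (z : Fin (n + k) → ℝ) : split n k z = (fstCoords k z, sndCoords k z) := by
  have h : (MeasurableEquiv.piCongrLeft (fun _ : Fin (n + k) => ℝ) finSumFinEquiv).symm z =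
      fun i => z (finSumFinEquiv i) := by
    rw [MeasurableEquiv.symm_apply_eq]
    funext i
    rw [MeasurableEquiv.coe_piCongrLeft]
    have := Equiv.piCongrLeft_apply (P := fun _ : Fin (n + k) => ℝ) finSumFinEquiv
      (fun i => z (finSumFinEquiv i)) i
    rw [this]
    simp
  show (MeasurableEquiv.sumPiEquivProdPi fun _ : Fin n ⊕ Fin k => ℝ)
    ((MeasurableEquiv.piCongrLeft (fun _ : Fin (n + k) => ℝ) finSumFinEquiv).symm z) = _
  rw [h]
  rfl

theorem split_mp (n k : ℕ) : MeasurePreserving (split n k) volume (volume.prod volume) :=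
  (volume_measurePreserving_piCongrLeft (fun _ : Fin (n + k) => ℝ) finSumFinEquiv).symm.trans
    (volume_measurePreserving_sumPiEquivProdPi fun _ : Fin n ⊕ Fin k => ℝ)

/-- Fubini for a bundle and a product function -/
theorem fubini {n k : ℕ} {D : Set (Fin n → ℝ)} (hD : MeasurableSet D)
    (T : (Fin n → ℝ) → Set (Fin k → ℝ))
    {E : Set (Fin (n + k) → ℝ)} (hE : E = {z | fstCoords k z ∈ D ∧ sndCoords k z ∈ T (fstCoords k z)})
    (hEm : MeasurableSet E) (A : (Fin n → ℝ) → ℝ) (B : (Fin k → ℝ) → ℝ)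
    (hint : IntegrableOn (fun z => A (fstCoords k z) * B (sndCoords k z)) E) :
    ∫ z in E, A (fstCoords k z) * B (sndCoords k z) =
      ∫ x in D, A x * ∫ y, (T x).indicator B y := by
  set G : (Fin n → ℝ) × (Fin k → ℝ) → ℝ := fun p =>
    D.indicator A p.1 * (T p.1).indicator B p.2 with hG
  have h1 : E.indicator (fun z => A (fstCoords k z) * B (sndCoords k z)) =
      fun z => G (split n k z) := by
    funext z
    rw [split_apply, hE, hG]
    show _ = D.indicator A (fstCoords k z) * (T (fstCoords k z)).indicator B (sndCoords k z)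
    by_cases h : fstCoords k z ∈ D
    · by_cases h' : sndCoords k z ∈ T (fstCoords k z)
      · rw [Set.indicator_of_mem (show z ∈ {z | fstCoords k z ∈ D ∧
          sndCoords k z ∈ T (fstCoords k z)} from ⟨h, h'⟩), Set.indicator_of_mem h,
          Set.indicator_of_mem h']
      · rw [Set.indicator_of_notMem (show z ∉ {z | fstCoords k z ∈ D ∧
          sndCoords k z ∈ T (fstCoords k z)} from fun h2 => h' h2.2),
          Set.indicator_of_notMem h', mul_zero]
    · rw [Set.indicator_of_notMem (show z ∉ {z | fstCoords k z ∈ D ∧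
        sndCoords k z ∈ T (fstCoords k z)} from fun h2 => h h2.1),
        Set.indicator_of_notMem h, zero_mul]
  have h2 : Integrable G (volume.prod volume) := by
    rw [← (split_mp n k).integrable_comp_emb (split n k).measurableEmbedding]
    have h3 := (integrable_indicator_iff hEm).mpr hint
    rw [h1] at h3
    exact h3
  rw [← integral_indicator hEm, h1, (split_mp n k).integral_comp (split n k).measurableEmbedding G,
    integral_prod G h2, ← integral_indicator hD]
  refine integral_congr_ae (Filter.Eventually.of_forall fun x => ?_)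
  simp only [hG]
  rw [integral_const_mul]
  by_cases h : x ∈ D
  · rw [Set.indicator_of_mem h, Set.indicator_of_mem h]
  · rw [Set.indicator_of_notMem h, Set.indicator_of_notMem h, zero_mul]

end fub

/-! ### values -/

/-- polynomials in `π` of degree at most `d` with algebraic coefficients -/
def Val (d : ℕ) (v : ℝ) : Prop :=
  ∃ p : Polynomial RealAlg, p.natDegree ≤ d ∧ v = Polynomial.aeval Real.pi p

theorem Val.add {d : ℕ} {v w : ℝ} (hv : Val d v) (hw : Val d w) : Val d (v + w) := by
  obtain ⟨p, hp, rfl⟩ := hv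
  obtain ⟨q, hq, rfl⟩ := hw
  exact ⟨p + q, (Polynomial.natDegree_add_le _ _).trans (max_le hp hq), (map_add _ _ _).symm⟩

theorem Val.neg {d : ℕ} {v : ℝ} (hv : Val d v) : Val d (-v) := by
  obtain ⟨p, hp, rfl⟩ := hv
  exact ⟨-p, (Polynomial.natDegree_neg p).le.trans hp, (map_neg _ _).symm⟩

theorem Val.mul_pi {d : ℕ} (e : ℕ) (a : RealAlg) {v : ℝ} (hv : Val d v) :
    Val (d + e) ((a : ℝ) * Real.pi ^ e * v) := by
  obtain ⟨p, hp, rfl⟩ := hv
  refine ⟨Polynomial.C a * Polynomial.X ^ e * p, ?_, ?_⟩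
  · refine Polynomial.natDegree_mul_le.trans ?_
    have h1 := Polynomial.natDegree_C_mul_X_pow_le a e
    omega
  · rw [map_mul, map_mul, map_pow, Polynomial.aeval_C, Polynomial.aeval_X]
    rfl

/-- the inductive statement -/
structure Good (n : ℕ) (D : Set (Fin n → ℝ)) : Prop where
  meas : MeasurableSet D
  bdd : Bornology.IsBounded D
  val : ∀ P : MultiPoly n, Val (n / 2) (∫ x in D, evalMulti P x)

theorem eval_split {n k : ℕ} (u : Fin (n + k) →₀ ℕ) (a : RealAlg) (z : Fin (n + k) → ℝ) :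
    evalMulti (MvPolynomial.monomial u a : MultiPoly (n + k)) z =
      evalMulti (MvPolynomial.C a * ∏ i, MvPolynomial.X i ^ u (Fin.castAdd k i) : MultiPoly n)
        (fstCoords k z) * ∏ j, sndCoords k z j ^ u (Fin.natAdd n j) := by
  rw [eval_mul, eval_C]
  unfold evalMulti
  rw [MvPolynomial.aeval_monomial, Finsupp.prod_fintype _ _ fun i => pow_zero _, map_prod,
    Fin.prod_univ_add]
  simp only [map_pow, MvPolynomial.aeval_X]
  rw [mul_assoc]
  rfl

/-- a bundle whose fibre integrals are polynomials -/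
theorem bundle_val {n k e : ℕ} {D : Set (Fin n → ℝ)} (hD : Good n D)
    (hke : n / 2 + e ≤ (n + k) / 2)
    (T : (Fin n → ℝ) → Set (Fin k → ℝ)) {E : Set (Fin (n + k) → ℝ)}
    (hE : E = {z | fstCoords k z ∈ D ∧ sndCoords k z ∈ T (fstCoords k z)})
    (hEm : MeasurableSet E) (hEb : Bornology.IsBounded E)
    (hfib : ∀ c : Fin k → ℕ, ∃ (a : RealAlg) (Q : MultiPoly n), ∀ x ∈ D,
      ∫ y, (T x).indicator (fun y => ∏ j, y j ^ c j) y = (a : ℝ) * Real.pi ^ e * evalMulti Q x) :
    Good (n + k) E := by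
  refine ⟨hEm, hEb, fun P => ?_⟩
  induction P using MvPolynomial.induction_on' with
  | monomial u b =>
    obtain ⟨a, Q, hQ⟩ := hfib fun j => u (Fin.natAdd n j)
    obtain ⟨R, hR⟩ : ∃ R : MultiPoly n, R = MvPolynomial.C b *
      ∏ i, MvPolynomial.X i ^ u (Fin.castAdd k i) := ⟨_, rfl⟩
    have h1 : (fun z : Fin (n + k) → ℝ => evalMulti (MvPolynomial.monomial u b :
        MultiPoly (n + k)) z) = fun z => evalMulti R (fstCoords k z) *
          (fun y : Fin k → ℝ => ∏ j, y j ^ u (Fin.natAdd n j)) (sndCoords k z) := by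
      rw [hR]
      exact funext fun z => eval_split u b z
    have h2 := integrable_eval (MvPolynomial.monomial u b : MultiPoly (n + k)) hEb
    have h2' : IntegrableOn (fun z : Fin (n + k) → ℝ => evalMulti R (fstCoords k z) *
          (fun y : Fin k → ℝ => ∏ j, y j ^ u (Fin.natAdd n j)) (sndCoords k z)) E := by
      rw [← h1]
      exact h2
    rw [h1, fubini hD.meas T hE hEm (evalMulti R)
      (fun y : Fin k → ℝ => ∏ j, y j ^ u (Fin.natAdd n j)) h2']
    have h3 : ∫ x in D, evalMulti R x * ∫ y, (T x).indicator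
        (fun y => ∏ j, y j ^ u (Fin.natAdd n j)) y =
          (a : ℝ) * Real.pi ^ e * ∫ x in D, evalMulti (R * Q) x := by
      rw [← integral_const_mul]
      refine setIntegral_congr_fun hD.meas fun x hx => ?_
      show evalMulti R x * _ = (a : ℝ) * Real.pi ^ e * evalMulti (R * Q) x
      rw [hQ x hx, eval_mul]
      ring
    rw [h3]
    obtain ⟨p, hp, hp'⟩ := (hD.val (R * Q)).mul_pi e a
    exact ⟨p, hp.trans hke, hp'⟩
  | add p q hp hq =>
    have h1 : ∫ z in E, evalMulti (p + q) z = (∫ z in E, evalMulti p z) +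
        ∫ z in E, evalMulti q z := by
      rw [← integral_add (integrable_eval p hEb) (integrable_eval q hEb)]
      exact integral_congr_ae (Filter.Eventually.of_forall fun z => eval_add p q z)
    rw [h1]
    exact hp.add hq

theorem good_union {n : ℕ} {D E : Set (Fin n → ℝ)} (hD : Good n D) (hE : Good n E)
    (h : Disjoint D E) : Good n (D ∪ E) := by
  refine ⟨hD.meas.union hE.meas, hD.bdd.union hE.bdd, fun P => ?_⟩
  rw [setIntegral_union h hE.meas (integrable_eval P hD.bdd) (integrable_eval P hE.bdd)]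
  exact (hD.val P).add (hE.val P)

theorem good_diff {n : ℕ} {D E : Set (Fin n → ℝ)} (hD : Good n D) (hE : Good n E)
    (h : E ⊆ D) : Good n (D \ E) := by
  refine ⟨hD.meas.diff hE.meas, hD.bdd.subset sdiff_subset, fun P => ?_⟩
  rw [setIntegral_sdiff hE.meas (integrable_eval P hD.bdd) h, sub_eq_add_neg]
  exact (hD.val P).add (hE.val P).neg

theorem good_image {n : ℕ} {D : Set (Fin n → ℝ)} (hD : Good n D) (F : Fin n → MultiPoly n)
    (hF : InjOn (polyMap F) D)
    (hJ : (∀ x ∈ D, 0 ≤ evalMulti (jacobian F) x) ∨ ∀ x ∈ D, evalMulti (jacobian F) x ≤ 0) :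
    Good n (polyMap F '' D) := by
  have hd : ∀ x ∈ D, HasFDerivWithinAt (polyMap F) (dmap F x) D x :=
    fun x _ => (polyMap_fderiv F x).hasFDerivWithinAt
  refine ⟨measurable_image_of_fderivWithin hD.meas hd hF, ?_, fun P => ?_⟩
  · exact (hD.bdd.isCompact_closure.image (polyMap_cont F)).isBounded.subset
      (image_mono subset_closure)
  · rw [integral_image_eq_integral_abs_det_fderiv_smul volume hD.meas hd hF]
    rcases hJ with hJ | hJ
    · have h1 : ∫ x in D, |(dmap F x).det| • evalMulti P (polyMap F x) =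
          ∫ x in D, evalMulti (jacobian F * MvPolynomial.bind₁ F P) x := by
        refine setIntegral_congr_fun hD.meas fun x hx => ?_
        show |(dmap F x).det| • evalMulti P (polyMap F x) = _
        rw [dmap_det, abs_of_nonneg (hJ x hx), eval_mul, eval_comp, smul_eq_mul]
      rw [h1]
      exact hD.val _
    · have h1 : ∫ x in D, |(dmap F x).det| • evalMulti P (polyMap F x) =
          ∫ x in D, -evalMulti (jacobian F * MvPolynomial.bind₁ F P) x := by
        refine setIntegral_congr_fun hD.meas fun x hx => ?_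
        show |(dmap F x).det| • evalMulti P (polyMap F x) = _
        rw [dmap_det, abs_of_nonpos (hJ x hx), eval_mul, eval_comp, smul_eq_mul]
        ring
      rw [h1, integral_neg]
      exact (hD.val _).neg

theorem good_point : Good 0 univ := by
  refine ⟨MeasurableSet.univ, ?_, fun P => ?_⟩
  · exact Set.subsingleton_univ.finite.isBounded
  · obtain ⟨a, ha⟩ : ∃ a : RealAlg, P = MvPolynomial.C a :=
      ⟨_, (MvPolynomial.eq_C_of_isEmpty P)⟩
    refine ⟨Polynomial.C a, (Polynomial.natDegree_C a).le, ?_⟩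
    rw [Measure.restrict_univ, ha, Polynomial.aeval_C]
    have h1 : ∫ x : Fin 0 → ℝ, evalMulti (MvPolynomial.C a : MultiPoly 0) x =
        ∫ x : Fin 0 → ℝ, (a : ℝ) := integral_congr_ae (Filter.Eventually.of_forall (eval_C a))
    rw [h1, integral_const]
    have h2 : (volume : Measure (Fin 0 → ℝ)).real univ = 1 := by
      rw [measureReal_def, volume_pi, Measure.pi_of_empty]
      simp
    rw [h2, one_smul]
    rfl

theorem snd_bdd {n k : ℕ} {D : Set (Fin n → ℝ)} (hD : Bornology.IsBounded D) (C : ℝ)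
    {E : Set (Fin (n + k) → ℝ)} (h1 : ∀ z ∈ E, fstCoords k z ∈ D)
    (h2 : ∀ z ∈ E, ∀ j, |sndCoords k z j| ≤ C) : Bornology.IsBounded E := by
  obtain ⟨R, hR⟩ := hD.exists_norm_le
  refine (isBounded_iff_forall_norm_le).mpr ⟨max (max R 0) C, fun z hz => ?_⟩
  rw [pi_norm_le_iff_of_nonneg (le_max_of_le_left (le_max_right _ _))]
  intro l
  refine Fin.addCases (fun i => ?_) (fun j => ?_) l
  · have h3 := hR _ (h1 z hz)
    have h4 := norm_le_pi_norm (fstCoords k z) i
    exact (h4.trans h3).trans (le_max_of_le_left (le_max_left _ _))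
  · exact (h2 z hz j).trans (le_max_right _ _)

theorem fst_cont {n : ℕ} (k : ℕ) : Continuous (fstCoords k : (Fin (n + k) → ℝ) → Fin n → ℝ) :=
  continuous_pi fun _ => continuous_apply _

theorem good_segment {n : ℕ} {D : Set (Fin n → ℝ)} (hD : Good n D) (g : MultiPoly n)
    (hg : ∀ x ∈ D, 0 ≤ evalMulti g x) :
    Good (n + 1) {z | fstCoords 1 z ∈ D ∧ 0 ≤ z (Fin.natAdd n 0) ∧
        z (Fin.natAdd n 0) ≤ evalMulti g (fstCoords 1 z)} := by
  refine bundle_val (e := 0) hD (by omega)
    (fun x => {y : Fin 1 → ℝ | 0 ≤ y 0 ∧ y 0 ≤ evalMulti g x}) rfl ?_ ?_ ?_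
  · refine ((fst_cont 1).measurable hD.meas).inter ?_
    refine (measurableSet_le measurable_const (measurable_pi_apply _)).inter ?_
    exact measurableSet_le (measurable_pi_apply _)
      ((eval_cont g).comp (fst_cont 1)).measurable
  · obtain ⟨C, hC⟩ := bdd_eval g hD.bdd
    refine snd_bdd hD.bdd C (fun z hz => hz.1) fun z hz j => ?_
    have hj : j = 0 := Subsingleton.elim _ _
    subst hj
    have h1 : 0 ≤ sndCoords 1 z 0 := hz.2.1
    rw [abs_of_nonneg h1]
    exact hz.2.2.trans ((le_abs_self _).trans (hC _ hz.1))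
  · intro c
    refine ⟨((c 0 : RealAlg) + 1)⁻¹, g ^ (c 0 + 1), fun x hx => ?_⟩
    have h1 := (volume_preserving_funUnique (Fin 1) ℝ).integral_comp
      (MeasurableEquiv.measurableEmbedding _)
      ((Icc 0 (evalMulti g x)).indicator fun t : ℝ => t ^ c 0)
    have h2 : (fun y : Fin 1 → ℝ => ({y : Fin 1 → ℝ | 0 ≤ y 0 ∧ y 0 ≤ evalMulti g x}).indicator
        (fun y => ∏ j, y j ^ c j) y) = fun y => (Icc 0 (evalMulti g x)).indicator
          (fun t : ℝ => t ^ c 0) (MeasurableEquiv.funUnique (Fin 1) ℝ y) := by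
      funext y
      have h3 : MeasurableEquiv.funUnique (Fin 1) ℝ y = y 0 := rfl
      rw [h3]
      by_cases h4 : 0 ≤ y 0 ∧ y 0 ≤ evalMulti g x
      · rw [indicator_of_mem (show y ∈ {y : Fin 1 → ℝ | 0 ≤ y 0 ∧ y 0 ≤ evalMulti g x} from h4),
          indicator_of_mem (show y 0 ∈ Icc 0 (evalMulti g x) from h4)]
        simp
      · rw [indicator_of_notMem (show y ∉ {y : Fin 1 → ℝ | 0 ≤ y 0 ∧ y 0 ≤ evalMulti g x} from h4),
          indicator_of_notMem (show y 0 ∉ Icc 0 (evalMulti g x) from h4)]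
    rw [h2]
    refine h1.trans ?_
    rw [integral_indicator measurableSet_Icc, integral_Icc_eq_integral_Ioc,
      ← intervalIntegral.integral_of_le (hg x hx), integral_pow, eval_pow]
    push_cast
    rw [zero_pow (by omega)]
    ring

theorem good_disc {n : ℕ} {D : Set (Fin n → ℝ)} (hD : Good n D) (r : MultiPoly n)
    (hr : ∀ x ∈ D, 0 ≤ evalMulti r x) :
    Good (n + 2) {z | fstCoords 2 z ∈ D ∧
        z (Fin.natAdd n 0) ^ 2 + z (Fin.natAdd n 1) ^ 2 ≤ evalMulti r (fstCoords 2 z)} := by
  refine bundle_val (e := 1) hD (by omega)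
    (fun x => {y : Fin 2 → ℝ | y 0 ^ 2 + y 1 ^ 2 ≤ evalMulti r x}) rfl ?_ ?_ ?_
  · refine ((fst_cont 2).measurable hD.meas).inter ?_
    refine measurableSet_le ?_ ((eval_cont r).comp (fst_cont 2)).measurable
    exact ((measurable_pi_apply _).pow_const 2).add ((measurable_pi_apply _).pow_const 2)
  · obtain ⟨C, hC⟩ := bdd_eval r hD.bdd
    refine snd_bdd hD.bdd (√C) (fun z hz => hz.1) fun z hz j => ?_
    have h1 : sndCoords 2 z 0 ^ 2 + sndCoords 2 z 1 ^ 2 ≤ C :=
      hz.2.trans ((le_abs_self _).trans (hC _ hz.1))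
    refine Real.abs_le_sqrt ?_
    fin_cases j
    · show sndCoords 2 z 0 ^ 2 ≤ C
      nlinarith [sq_nonneg (sndCoords 2 z 1)]
    · show sndCoords 2 z 1 ^ 2 ≤ C
      nlinarith [sq_nonneg (sndCoords 2 z 0)]
  · intro c
    have h1 : ∀ x ∈ D, ∫ y : Fin 2 → ℝ, ({y : Fin 2 → ℝ | y 0 ^ 2 + y 1 ^ 2 ≤
        evalMulti r x}).indicator (fun y => ∏ j, y j ^ c j) y =
          √(evalMulti r x) ^ (c 0 + c 1 + 2) / (c 0 + c 1 + 2) * ang (c 0) (c 1) := by
      intro x hx
      rw [← disc_moment (c 0) (c 1) (hr x hx), ← (volume_preserving_finTwoArrow ℝ).integral_comp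
        (MeasurableEquiv.measurableEmbedding _)]
      refine integral_congr_ae (Filter.Eventually.of_forall fun y => ?_)
      show ({y : Fin 2 → ℝ | y 0 ^ 2 + y 1 ^ 2 ≤ evalMulti r x}).indicator
        (fun y => ∏ j, y j ^ c j) y = if y 0 ^ 2 + y 1 ^ 2 ≤ evalMulti r x then
          y 0 ^ c 0 * y 1 ^ c 1 else 0
      rw [indicator_apply]
      simp only [Fin.prod_univ_two]
      rfl
    by_cases h : Even (c 0) ∧ Even (c 1)
    · obtain ⟨q, hq⟩ := (ang_val (c 0) (c 1)).1 h.1 h.2
      obtain ⟨s, hs⟩ := h.1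
      obtain ⟨t, ht⟩ := h.2
      refine ⟨(algebraMap ℚ RealAlg (q / (c 0 + c 1 + 2))), r ^ (s + t + 1), fun x hx => ?_⟩
      rw [h1 x hx, hq, eval_pow]
      have h2 : √(evalMulti r x) ^ (c 0 + c 1 + 2) = evalMulti r x ^ (s + t + 1) := by
        rw [hs, ht, show s + s + (t + t) + 2 = 2 * (s + t + 1) by ring, pow_mul,
          Real.sq_sqrt (hr x hx)]
      have h3 : ((algebraMap ℚ RealAlg (q / (c 0 + c 1 + 2)) : RealAlg) : ℝ) =
          ((q / (c 0 + c 1 + 2) : ℚ) : ℝ) := rfl
      rw [h2, h3]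
      push_cast
      ring
    · refine ⟨0, 0, fun x hx => ?_⟩
      rw [h1 x hx, (ang_val (c 0) (c 1)).2 h]
      simp

theorem good {n : ℕ} {D : Set (Fin n → ℝ)} (h : Tower n D) : Good n D := by
  induction h with
  | point => exact good_point
  | segment _ g hg ih => exact good_segment ih g hg
  | disc _ r hr ih => exact good_disc ih r hr
  | image _ F hF hJ ih => exact good_image ih F hF hJ
  | union _ _ h ih1 ih2 => exact good_union ih1 ih2 h
  | diff _ _ h ih1 ih2 => exact good_diff ih1 ih2 h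

theorem pi_tower : IsTowerIntegral Real.pi := by
  refine ⟨0 + 2, _, 1, Tower.disc Tower.point 1 fun x _ => ?_, ?_⟩
  · unfold evalMulti
    rw [map_one]
    exact zero_le_one
  · have h0 : ang 0 0 = 2 * Real.pi := by
      unfold ang
      simp
      ring
    have h1 := disc_moment 0 0 zero_le_one
    rw [h0, ← (volume_preserving_finTwoArrow ℝ).integral_comp
      (MeasurableEquiv.measurableEmbedding _)] at h1
    have h2 : ∀ x : Fin (0 + 2) → ℝ, evalMulti (1 : MultiPoly (0 + 2)) x = 1 := by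
      intro x
      unfold evalMulti
      rw [map_one]
    have h2' : ∀ x : Fin 0 → ℝ, evalMulti (1 : MultiPoly 0) x = 1 := by
      intro x
      unfold evalMulti
      rw [map_one]
    have hm : MeasurableSet {z : Fin (0 + 2) → ℝ | fstCoords 2 z ∈ (univ : Set (Fin 0 → ℝ)) ∧
        z (Fin.natAdd 0 0) ^ 2 + z (Fin.natAdd 0 1) ^ 2 ≤
          evalMulti (1 : MultiPoly 0) (fstCoords 2 z)} :=
      (good (Tower.disc Tower.point 1 fun x _ => by rw [h2']; exact zero_le_one)).meas
    rw [← integral_indicator hm]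
    have h3 : ∫ z : Fin (0 + 2) → ℝ, ({z : Fin (0 + 2) → ℝ | fstCoords 2 z ∈
        (univ : Set (Fin 0 → ℝ)) ∧ z (Fin.natAdd 0 0) ^ 2 + z (Fin.natAdd 0 1) ^ 2 ≤
          evalMulti (1 : MultiPoly 0) (fstCoords 2 z)}).indicator
            (evalMulti (1 : MultiPoly (0 + 2))) z =
        √1 ^ (0 + 0 + 2) / ((0 : ℕ) + (0 : ℕ) + 2) * (2 * Real.pi) := by
      rw [← h1]
      refine integral_congr_ae (Filter.Eventually.of_forall fun z => ?_)
      show _ = if z 0 ^ 2 + z 1 ^ 2 ≤ 1 then z 0 ^ 0 * z 1 ^ 0 else 0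
      by_cases h : z 0 ^ 2 + z 1 ^ 2 ≤ 1
      · rw [if_pos h, indicator_of_mem (show z ∈ {z : Fin (0 + 2) → ℝ | fstCoords 2 z ∈
        (univ : Set (Fin 0 → ℝ)) ∧ z (Fin.natAdd 0 0) ^ 2 + z (Fin.natAdd 0 1) ^ 2 ≤
          evalMulti (1 : MultiPoly 0) (fstCoords 2 z)} from ⟨trivial, by rw [h2']; exact h⟩), h2]
        simp
      · rw [if_neg h, indicator_of_notMem (show z ∉ {z : Fin (0 + 2) → ℝ | fstCoords 2 z ∈
        (univ : Set (Fin 0 → ℝ)) ∧ z (Fin.natAdd 0 0) ^ 2 + z (Fin.natAdd 0 1) ^ 2 ≤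
          evalMulti (1 : MultiPoly 0) (fstCoords 2 z)} from fun h' => h (by
            have := h'.2
            rw [h2'] at this
            exact this))]
    rw [h3, Real.sqrt_one]
    push_cast
    ring

theorem ring_eq : towerRing = Algebra.adjoin RealAlg {Real.pi} := by
  unfold towerRing
  apply le_antisymm
  · apply Algebra.adjoin_le
    rintro v ⟨n, D, P, hD, rfl⟩
    obtain ⟨p, _, hp⟩ := (good hD).val P
    rw [hp, Algebra.adjoin_singleton_eq_range_aeval]
    exact ⟨p, rfl⟩
  · apply Algebra.adjoin_mono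
    rintro _ rfl
    exact pi_tower

theorem main : (∀ (n : ℕ) (D : Set (Fin n → ℝ)), Tower n D → ∀ P : MultiPoly n,
      ∃ p : Polynomial RealAlg, p.natDegree ≤ n / 2 ∧
        ∫ x in D, evalMulti P x = Polynomial.aeval Real.pi p) ∧
    towerRing = Algebra.adjoin RealAlg {Real.pi} ∧ (Real.pi)⁻¹ ∉ towerRing := by
  refine ⟨fun n D hD P => (good hD).val P, ring_eq, ?_⟩
  rw [ring_eq]
  exact inv_pi_not_mem

end Pool.Agent.Helper77.TW
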